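import Mathlib

/-! A finite semi-rational group (of order 243) whose absolute center has an element of order 3. -/

namespace Pool.Agent.Results.MP_82b5c7_al.Counter

/-- The number of solutions of `w(x) = g`. -/
noncomputable def N {G : Type} [Group G] {r : ℕ} (w : FreeGroup (Fin r)) (g : G) : ℕ :=
  Nat.card {x : Fin r → G // FreeGroup.lift x w = g}

/-- Semi-rationality in the Amit–Vishne form: every `N w` is constant on the generators of each
cyclic subgroup. -/
def SemiRational (G : Type) [Group G] : Prop :=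
  ∀ (r : ℕ) (w : FreeGroup (Fin r)) (g h : G), Subgroup.zpowers g = Subgroup.zpowers h →
    N w g = N w h

/-- The group `C₉ ⋊ C₂₇`. -/
@[ext] structure G where
  a : ZMod 9
  b : ZMod 27
  deriving DecidableEq, Fintype

/-- Reduction. -/
def φ : ZMod 27 →+* ZMod 9 := ZMod.castHom (by norm_num) _

theorem h9 : (9 : ZMod 9) = 0 := rfl
theorem h27 : (27 : ZMod 27) = 0 := rfl

instance : Mul G := ⟨fun x y => ⟨x.a + y.a + 3 * (x.a * φ y.b - y.a * φ x.b), x.b + y.b⟩⟩
instance : One G := ⟨⟨0, 0⟩⟩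
instance : Inv G := ⟨fun x => ⟨-x.a, -x.b⟩⟩
theorem mul_a (x y : G) : (x * y).a = x.a + y.a + 3 * (x.a * φ y.b - y.a * φ x.b) := rfl
theorem mul_b (x y : G) : (x * y).b = x.b + y.b := rfl
theorem one_a : (1 : G).a = 0 := rfl
theorem one_b : (1 : G).b = 0 := rfl
theorem inv_a (x : G) : x⁻¹.a = -x.a := rfl
theorem inv_b (x : G) : x⁻¹.b = -x.b := rfl

instance : Group G := Group.ofLeftAxioms
  (fun x y z => by
    ext
    · simp only [mul_a, mul_b, map_add]
      linear_combination ((x.a * φ y.b - y.a * φ x.b) * φ z.b +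
        (y.a * φ z.b - z.a * φ y.b) * φ x.b) * h9
    · simp only [mul_b, add_assoc])
  (fun x => by ext <;> simp [mul_a, mul_b, one_a, one_b])
  (fun x => by ext <;> simp [mul_a, mul_b, one_a, one_b, inv_a, inv_b])

theorem pow_eq (x : G) (n : ℕ) : x ^ n = ⟨n * x.a, n * x.b⟩ := by
  induction n with
  | zero => ext <;> simp [one_a, one_b]
  | succ n ih => rw [pow_succ, ih]; ext <;> simp [mul_a, mul_b] <;> ring

theorem zpow_eq (x : G) (n : ℤ) : x ^ n = ⟨n * x.a, n * x.b⟩ := by
  obtain ⟨n, rfl | rfl⟩ := n.eq_nat_or_neg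
  · simp [pow_eq]
  · ext <;> simp [pow_eq, inv_a, inv_b]

theorem nf {r : ℕ} (w : FreeGroup (Fin r)) : ∃ (e : Fin r → ℤ)
    (Q : LinearMap.BilinForm (ZMod 9) (Fin r → ZMod 9)), (∀ v, Q v v = 0) ∧
    ∀ x : Fin r → G, FreeGroup.lift x w = ⟨∑ i, e i * (x i).a +
      3 * Q (fun i => (x i).a) (fun i => φ (x i).b), ∑ i, e i * (x i).b⟩ := by
  induction w using FreeGroup.induction_on with
  | C1 => exact ⟨0, 0, fun _ => rfl, fun x => by ext <;> simp [one_a, one_b]⟩
  | of i => exact ⟨Pi.single i 1, 0, fun _ => rfl, fun x => by ext <;> simp [Pi.single_apply]⟩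
  | inv_of i _ => exact ⟨-Pi.single i 1, 0, fun _ => rfl, fun x => by
      ext <;> simp [Pi.single_apply, inv_a, inv_b, apply_ite]⟩
  | mul u v hu hv =>
    obtain ⟨e, Q, hQ, h⟩ := hu
    obtain ⟨e', Q', hQ', h'⟩ := hv
    let L : (Fin r → ℤ) → ((Fin r → ZMod 9) →ₗ[ZMod 9] ZMod 9) := fun e =>
      ∑ i, (e i : ZMod 9) • LinearMap.proj i
    have hL : ∀ e v, L e v = ∑ i, (e i : ZMod 9) * v i := fun e v => by simp [L]
    refine ⟨e + e', Q + Q' + (LinearMap.BilinForm.linMulLin (L e) (L e') -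
      LinearMap.BilinForm.linMulLin (L e') (L e)), fun v => by simp [hQ, hQ', mul_comm], fun x => ?_⟩
    rw [map_mul, h, h']
    ext
    · simp only [mul_a, map_sum, map_mul, map_intCast, Pi.add_apply, Int.cast_add, add_mul,
        Finset.sum_add_distrib, LinearMap.add_apply, LinearMap.sub_apply,
        LinearMap.BilinForm.linMulLin_apply, hL]
      linear_combination (Q (fun i => (x i).a) (fun i => φ (x i).b) * ∑ i, e' i * φ (x i).b -
        Q' (fun i => (x i).a) (fun i => φ (x i).b) * ∑ i, e i * φ (x i).b) * h9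
    · simp [mul_b, add_mul, Finset.sum_add_distrib]

theorem N_le {r : ℕ} (w : FreeGroup (Fin r)) (g h : G) (Φ : (Fin r → G) → (Fin r → G))
    (hΦ : Function.Injective Φ) (H : ∀ x, FreeGroup.lift x w = g → FreeGroup.lift (Φ x) w = h) :
    N w g ≤ N w h :=
  Nat.card_le_card_of_injective (fun x => ⟨Φ x.1, H _ x.2⟩) fun _ _ h =>
    Subtype.ext (hΦ (congrArg Subtype.val h))

theorem sq9 (k : ℤ) (hk : ¬ (3 : ℤ) ∣ k) : (3 : ZMod 9) * (k * k) = 3 := by
  obtain ⟨j, rfl | rfl⟩ : ∃ j, k = 3 * j + 1 ∨ k = 3 * j - 1 := ⟨(k + 1) / 3, by omega⟩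
  · push_cast; linear_combination (3 * j * j + 2 * j) * h9
  · push_cast; linear_combination (3 * j * j - 2 * j) * h9

theorem N_pow {r : ℕ} (w : FreeGroup (Fin r)) (g : G) (j : ℤ) : N w g ≤ N w (g ^ (3 * j + 1)) := by
  obtain ⟨e, Q, -, h⟩ := nf w
  refine N_le w _ _ (fun x i => x i ^ (3 * j + 1)) (fun x y hxy => funext fun i => ?_) ?_
  · have h1 := congrFun hxy i
    simp only [zpow_eq, G.mk.injEq] at h1
    have u9 : ∀ j a b : ZMod 9, (3 * j + 1) * a = (3 * j + 1) * b → a = b := by decide +kernel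
    have u27 : ∀ j a : ZMod 27, (3 * j + 1) * a = 0 → a = 0 := by decide +kernel
    push_cast at h1
    exact G.ext (u9 _ _ _ h1.1) (sub_eq_zero.1 (u27 j _ (by rw [mul_sub, h1.2, sub_self])))
  · rintro x rfl
    rw [h, h, zpow_eq]
    have e1 : (fun i => (x i ^ (3 * j + 1)).a) = ((3 * j + 1 : ℤ) : ZMod 9) • fun i => (x i).a := by
      funext i; simp [zpow_eq]
    have e2 : (fun i => φ (x i ^ (3 * j + 1)).b) =
        ((3 * j + 1 : ℤ) : ZMod 9) • fun i => φ (x i).b := by
      funext i; simp [zpow_eq, map_ofNat]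
    rw [e1, e2]
    ext
    · simp only [zpow_eq, map_smul, LinearMap.smul_apply, smul_eq_mul, mul_left_comm (e _ : ZMod 9),
        ← Finset.mul_sum]
      push_cast
      linear_combination (j * (3 * j + 1) * Q (fun i => (x i).a) (fun i => φ (x i).b)) * h9
    · simp only [zpow_eq, mul_left_comm (e _ : ZMod 27), ← Finset.mul_sum]

theorem N_inv {r : ℕ} (w : FreeGroup (Fin r)) (g : G) : N w g ≤ N w g⁻¹ := by
  obtain ⟨e, Q, hQ, h⟩ := nf w
  let mk : (Fin r → ZMod 9) → (Fin r → ZMod 27) → Fin r → G := fun a b i => ⟨a i, b i⟩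
  let A : (Fin r → G) → Fin r → ZMod 9 := fun x i => (x i).a
  let B : (Fin r → G) → Fin r → ZMod 27 := fun x i => (x i).b
  let P : (Fin r → ZMod 27) → Fin r → ZMod 9 := fun b i => φ (b i)
  have hmk : ∀ x, mk (A x) (B x) = x := fun _ => rfl
  have hP : ∀ b, P (-b) = -P b := fun b => funext fun i => map_neg φ _
  have h' : ∀ a b, FreeGroup.lift (mk a b) w = ⟨∑ i, e i * a i + 3 * Q a (P b), ∑ i, e i * b i⟩ :=
    fun a b => h _
  have hneg : ∀ b : Fin r → ZMod 27, ∑ i, e i * (-b) i = -∑ i, e i * b i := fun b => by simp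
  by_cases h1 : ∃ i, ¬ (3 : ℤ) ∣ e i
  · obtain ⟨i, hi⟩ := h1
    refine N_le w _ _ (fun x => mk (-A x + (3 * e i * Q (A x) (P (B x))) • Pi.single i 1) (-B x))
      (Function.Involutive.injective fun x => ?_) ?_
    · show mk (-(-A x + _) + (3 * e i * Q (-A x + _) (P (-B x))) • Pi.single i 1) (- -B x) =
        mk (A x) (B x)
      rw [neg_neg, hP]
      congr 1
      simp only [map_add, map_neg, map_smul, LinearMap.add_apply, LinearMap.neg_apply,
        LinearMap.smul_apply, smul_eq_mul, neg_add, neg_neg, add_assoc, ← neg_smul, ← add_smul]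
      rw [add_eq_left]
      refine smul_eq_zero_of_left ?_ _
      linear_combination (-e i * e i * Q (A x) (P (B x)) * Q (Pi.single i 1) (P (B x))) * h9
    · rintro x rfl
      rw [h', ← hmk x, h', hP, hneg]
      refine G.ext ?_ rfl
      simp only [inv_a, map_add, map_neg, map_smul, LinearMap.add_apply, LinearMap.neg_apply,
        LinearMap.smul_apply, smul_eq_mul, Pi.add_apply, Pi.neg_apply, Pi.smul_apply, mul_add,
        Finset.sum_add_distrib, mul_neg, Finset.sum_neg_distrib, Pi.single_apply, mul_ite, mul_one,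
        mul_zero, Finset.sum_ite_eq', Finset.mem_univ, if_true, hmk]
      linear_combination Q (A x) (P (B x)) * sq9 _ hi +
        (Q (A x) (P (B x)) - e i * Q (A x) (P (B x)) * Q (Pi.single i 1) (P (B x))) * h9
  push Not at h1
  choose f hf using h1
  by_cases h2 : ∃ i, ¬ (3 : ℤ) ∣ f i
  · obtain ⟨i, hi⟩ := h2
    by_cases h3 : 3 * g.b = 0
    · refine N_le w _ _ (fun x => mk (-A x) (B x + (f i * ∑ k, f k * B x k) • Pi.single i 1))
        (fun x y hxy => ?_) ?_
      · have e1 : A x = A y := neg_injective (congrArg A hxy)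
        have e2 : B x + (f i * ∑ k, f k * B x k) • Pi.single i 1 =
          B y + (f i * ∑ k, f k * B y k) • Pi.single i 1 := congrArg B hxy
        have e3 := congrArg (fun b : Fin r → ZMod 27 => ∑ k, f k * b k) e2
        simp only [Pi.add_apply, Pi.smul_apply, smul_eq_mul, mul_add, Finset.sum_add_distrib,
          Pi.single_apply, mul_ite, mul_one, mul_zero, Finset.sum_ite_eq', Finset.mem_univ,
          if_true] at e3
        have u27 : ∀ j a : ZMod 27, (1 + j * j) * a = 0 → a = 0 := by decide +kernel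
        have e4 := sub_eq_zero.1 (u27 (f i) (∑ k, f k * B x k - ∑ k, f k * B y k)
          (by linear_combination e3))
        rw [e4] at e2
        rw [← hmk x, ← hmk y, e1, add_right_cancel e2]
      · rintro x rfl
        rw [← hmk x, h'] at h3
        simp only [hf, Int.cast_mul, Int.cast_ofNat, mul_assoc, ← Finset.mul_sum] at h3
        have u : ∀ s : ZMod 27, 3 * (3 * s) = 0 → 3 * φ s = 0 := by decide +kernel
        have u' : ∀ j s : ZMod 27, 3 * (3 * s) = 0 → 3 * φ (j * j) = 3 →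
          3 * (j * (j * s)) = -6 * s := by decide +kernel
        have e1 : P (B x + (f i * ∑ k, f k * B x k) • Pi.single i 1) =
            P (B x) + (φ (∑ k, f k * B x k) * f i) • Pi.single i 1 := by
          funext k
          simp [P, Pi.single_apply, apply_ite φ, mul_comm]
        rw [h', ← hmk x, h', e1]
        ext
        · simp only [inv_a, map_add, map_neg, map_smul, LinearMap.neg_apply, smul_eq_mul,
            Pi.neg_apply, mul_neg, Finset.sum_neg_distrib, hmk]
          linear_combination (-f i * Q (A x) (Pi.single i 1)) * u _ h3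
        · simp only [inv_b, hmk, Pi.add_apply, Pi.smul_apply, smul_eq_mul, mul_add,
            Finset.sum_add_distrib, Pi.single_apply, mul_ite, mul_one, mul_zero,
            Finset.sum_ite_eq', Finset.mem_univ, if_true, hf, Int.cast_mul, Int.cast_ofNat,
            mul_assoc, ← Finset.mul_sum]
          linear_combination u' (f i) _ h3 (by simpa using sq9 _ hi)
    · refine N_le w _ _ (fun x => mk (-A x + (φ (∑ k, f k * B x k) * Q (A x) (P (B x))) • P (B x))
        (-B x)) (Function.Involutive.injective fun x => ?_) ?_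
      · show mk (-(-A x + _) + (φ (∑ k, f k * (-B x) k) * Q (-A x + _) (P (-B x))) • P (-B x))
          (- -B x) = mk (A x) (B x)
        rw [neg_neg, hP]
        congr 1
        simp [hQ]
      · rintro x rfl
        rw [← hmk x, h'] at h3
        simp only [hf, Int.cast_mul, Int.cast_ofNat, mul_assoc, ← Finset.mul_sum] at h3
        have u : ∀ s : ZMod 27, ¬ 3 * (3 * s) = 0 → 3 * (φ s * φ s) = 3 := by decide +kernel
        have e1 : ∑ k, (f k : ZMod 9) * P (B x) k = φ (∑ k, f k * B x k) := by simp [P]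
        rw [h', ← hmk x, h', hP, hneg]
        refine G.ext ?_ rfl
        simp only [inv_a, map_add, map_neg, map_smul, LinearMap.add_apply, LinearMap.neg_apply,
          LinearMap.smul_apply, smul_eq_mul, Pi.add_apply, Pi.neg_apply, Pi.smul_apply, mul_add,
          Finset.sum_add_distrib, mul_neg, Finset.sum_neg_distrib, hmk, hQ, hf, Int.cast_mul,
          Int.cast_ofNat, mul_assoc, ← Finset.mul_sum, mul_left_comm (f _ : ZMod 9), e1]
        linear_combination Q (A x) (P (B x)) * u _ h3 + Q (A x) (P (B x)) * h9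
  · push Not at h2
    choose k hk using h2
    refine N_le w _ _ (fun x => mk (A x) (-B x)) (Function.Involutive.injective fun x => ?_) ?_
    · show mk (A x) (- -B x) = x
      rw [neg_neg]
    · rintro x rfl
      rw [h', ← hmk x, h', hP, hneg]
      refine G.ext ?_ rfl
      simp only [inv_a, map_neg, hmk, hf, hk, Int.cast_mul, Int.cast_ofNat, mul_assoc,
        ← Finset.mul_sum]
      linear_combination (2 * ∑ i, k i * A x i) * h9

theorem N_gen {r : ℕ} (w : FreeGroup (Fin r)) (g h : G)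
    (H : Subgroup.zpowers g = Subgroup.zpowers h) : N w g ≤ N w h := by
  obtain ⟨k, hk⟩ := Subgroup.mem_zpowers_iff.1 (H ▸ Subgroup.mem_zpowers h : h ∈ Subgroup.zpowers g)
  obtain ⟨l, hl⟩ := Subgroup.mem_zpowers_iff.1 (H ▸ Subgroup.mem_zpowers g : g ∈ Subgroup.zpowers h)
  obtain ⟨j, rfl | rfl | rfl⟩ : ∃ j, k = 3 * j + 1 ∨ k = -(3 * j + 1) ∨ k = 3 * j :=
    if h3 : k % 3 = 2 then ⟨-(k + 1) / 3, by omega⟩ else ⟨k / 3, by omega⟩
  · exact hk ▸ N_pow w g j
  · rw [← hk, zpow_neg]
    exact (N_pow w g j).trans (N_inv w _)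
  · have h1 : g = g ^ (3 * j * l) := by rw [zpow_mul, hk, hl]
    have h2 : g = 1 := by
      rw [h1, h1, h1, ← zpow_mul, ← zpow_mul, zpow_eq]
      ext
      · rw [one_a]; push_cast; linear_combination (3 * (j * l) ^ 3 * g.a) * h9
      · rw [one_b]; push_cast; linear_combination ((j * l) ^ 3 * g.b) * h27
    rw [← hk, h2, one_zpow]

theorem result : ∃ (G : Type) (_ : Group G) (_ : Finite G), SemiRational G ∧
    ∃ z : G, (∀ α : MulAut G, α z = z) ∧ 3 ≤ orderOf z := by
  refine ⟨G, inferInstance, inferInstance,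
    fun r w g h H => le_antisymm (N_gen w g h H) (N_gen w h g H.symm), ⟨0, 9⟩, fun α => ?_, ?_⟩
  · have h1 : (⟨1, 0⟩ : G) * ⟨0, 1⟩ = ⟨0, 1⟩ * ⟨1, 0⟩ * ⟨1, 0⟩ ^ 6 := by decide +kernel
    have h2 : (⟨0, 9⟩ : G) = ⟨0, 1⟩ ^ 9 := by decide +kernel
    have h3 : α ⟨1, 0⟩ ^ 3 ≠ 1 := by
      rw [← map_pow, Ne, map_eq_one_iff α α.injective]; decide +kernel
    have h4 := congrArg α h1
    simp only [map_mul, map_pow] at h4
    conv_lhs => rw [h2, map_pow]
    generalize α ⟨1, 0⟩ = x at h3 h4
    generalize α ⟨0, 1⟩ = y at h4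
    obtain ⟨a, b⟩ := x
    obtain ⟨c, d⟩ := y
    simp only [pow_eq, G.ext_iff, mul_a, mul_b, Ne, one_a, one_b] at h3 h4 ⊢
    have u : ∀ b : ZMod 27, (6 : ℕ) * b = 0 → (3 : ℕ) * b = 0 ∧ φ b = 0 := by decide +kernel
    obtain ⟨h5, h6⟩ := u b (by linear_combination -h4.2)
    have u' : ∀ (a : ZMod 9) (d : ZMod 27), ¬ (3 : ℕ) * a = 0 → 3 * (a * φ d) = 3 * a →
      (9 : ℕ) * d = 9 := by decide +kernel
    refine ⟨by rw [Nat.cast_ofNat, h9, zero_mul], u' a d (fun h => h3 ⟨h, h5⟩) ?_⟩
    have h7 := h4.1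
    simp only [map_mul, map_add, h6, map_natCast] at h7
    push_cast at h7
    linear_combination -h7 + (-a + 3 * a * φ d) * h9
  · rw [orderOf_eq_prime (p := 3) (by decide +kernel) (by decide +kernel)]

end Pool.Agent.Results.MP_82b5c7_al.Counter
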